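import Pool.Agent.NH34.CT.Asm
import Pool.Agent.NH34.CT.W1
import Pool.Agent.NH34.CT.W24
import Pool.Agent.NH34.CT.W3
import Pool.Agent.NH34.CT.W5
import Pool.Agent.NH34.CT.W67
import Pool.Agent.NH34.CT.W8
import Pool.Agent.NH34.CT.W9
import Pool.Agent.NH34.CT.F1
import Pool.Agent.NH34.CT.B1
import Pool.Agent.NH34.CT.B2
import Pool.Agent.NH34.CT.B3
import Pool.Agent.NH34.CT.B4
import Pool.Agent.NH34.CT.B5a
import Pool.Agent.NH34.CT.B5
import Pool.Agent.NH34.CT.B6
import Pool.Agent.NH34.CT.B7ab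
import Pool.Agent.NH34.CT.B7
import Pool.Agent.NH34.CT.B8
import Pool.Agent.NH34.CT.B9
import Pool.Agent.NH34.CT.G1
import Pool.Agent.NH34.CT.G2
import Pool.Agent.NH34.CT.G3
import Pool.Agent.NH34.CT.U1
import Pool.Agent.NH34.CT.U2
import Pool.Agent.NH34.CT.U3

/-!
# The family `S_B` over `k(t)`: the parity of the analytic rank

Let `k` be a finite field with `q` elements, of characteristic at least `5`, and `F = k(t)`. For a
real number `B` let `S_B` be the set of all pairs `(a, b)` in `F × F` with `H(a) ≤ B`, `H(b) ≤ B` and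
`4 a ^ 3 + 27 b ^ 2 ≠ 0`, where `H` is the Weil height. We study the parity of the order of vanishing of
the `L`-functions of the curves `y ^ 2 = x ^ 3 + a x + b` for `(a, b)` in `S_B`.
-/

set_option autoImplicit false
set_option linter.all false
set_option maxHeartbeats 1000000

open Polynomial

namespace Pool.Agent.Results.MP_81dc49_nt.ParityConstantTwists

section defs

variable {k : Type} [Field k]

/-- The multiplicative height `H(x) = q ^ (max (deg u) (deg v))` of `x = u / v` in `k(t)`, in lowest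
terms. -/
noncomputable def height (x : RatFunc k) : ℝ :=
  (Nat.card k : ℝ) ^ max x.num.natDegree x.denom.natDegree

/-- The pairs `(a, b)` with `H(a) ≤ B` and `H(b) ≤ B` for which `y ^ 2 = x ^ 3 + a x + b` is an elliptic
curve over `k(t)`. -/
def S (k : Type) [Field k] (B : ℝ) : Set (RatFunc k × RatFunc k) :=
  {x | height x.1 ≤ B ∧ height x.2 ≤ B ∧ 4 * x.1 ^ 3 + 27 * x.2 ^ 2 ≠ 0}

/-- The number of solutions of `y ^ 2 = x ^ 3 + a x + b` in a ring. -/
noncomputable def affinePoints (R : Type) [CommRing R] (a b : R) : ℕ :=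
  Nat.card {z : R × R // z.2 ^ 2 = z.1 ^ 3 + a * z.1 + b}

/-- `α ^ j + β ^ j`, where `α + β = a` and `α β = c`. -/
def powerTrace (a c : ℤ) (j : ℕ) : ℤ :=
  ((!![a, -c; 1, 0] : Matrix (Fin 2) (Fin 2) ℤ) ^ j).trace

open Classical in
/-- The number `α ^ j + β ^ j` at the place of `k(t)` given by the prime `P`: the Euler factor of
`y ^ 2 = x ^ 3 + A x + B` is `(1 - α T) (1 - β T) = 1 - a T + c T ^ 2` in `T = q_P ^ (-s)`, with
`a = q_P - (number of affine points modulo P)`, `q_P = q ^ (deg P)`, and `c = q_P` for good reduction,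
`c = 0` for bad reduction. -/
noncomputable def primeTerm (A B P : k[X]) (j : ℕ) : ℤ :=
  powerTrace
    ((Nat.card k : ℤ) ^ P.natDegree -
      affinePoints (AdjoinRoot P) (AdjoinRoot.mk P A) (AdjoinRoot.mk P B))
    (if P ∣ 4 * A ^ 3 + 27 * B ^ 2 then 0 else (Nat.card k : ℤ) ^ P.natDegree) j

open Classical in
/-- The same at the infinite place, where the reduction is `y ^ 2 = x ^ 3 + a x + b`. -/
noncomputable def infinityTerm (a b : k) (j : ℕ) : ℤ :=
  powerTrace ((Nat.card k : ℤ) - affinePoints k a b)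
    (if 4 * a ^ 3 + 27 * b ^ 2 = 0 then 0 else (Nat.card k : ℤ)) j

open Classical in
/-- The number `S_m` in `L(T, E) = exp (∑ S_m T ^ m / m)`: the sum over the places `v` with
`deg v ∣ m` of `deg v (α_v ^ (m / deg v) + β_v ^ (m / deg v))`, for the minimal equation
`y ^ 2 = x ^ 3 + A x + B` with `deg A ≤ 4 d` and `deg B ≤ 6 d`. -/
noncomputable def logCoeff (d : ℕ) (A B : k[X]) (m : ℕ) : ℤ :=
  infinityTerm (A.coeff (4 * d)) (B.coeff (6 * d)) m +
    ∑ᶠ P : k[X], if P.Monic ∧ Irreducible P ∧ P.natDegree ∣ m then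
      (P.natDegree : ℤ) * primeTerm A B P (m / P.natDegree) else 0

open Classical in
/-- The exponent of the conductor at `P`: two for additive, one for multiplicative reduction. -/
noncomputable def conductorAt (A B P : k[X]) : ℕ :=
  if P ∣ 4 * A ^ 3 + 27 * B ^ 2 then (if P ∣ A then 2 else 1) else 0

open Classical in
/-- The exponent of the conductor at the infinite place. -/
noncomputable def conductorAtInfinity (a b : k) : ℕ :=
  if 4 * a ^ 3 + 27 * b ^ 2 = 0 then (if a = 0 then 2 else 1) else 0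

open Classical in
/-- The degree of the conductor. -/
noncomputable def conductorDegree (d : ℕ) (A B : k[X]) : ℕ :=
  conductorAtInfinity (A.coeff (4 * d)) (B.coeff (6 * d)) +
    ∑ᶠ P : k[X], if P.Monic ∧ Irreducible P then P.natDegree * conductorAt A B P else 0

/-- `y ^ 2 = x ^ 3 + A x + B` is a minimal equation of an elliptic curve over `k(t)`:
`deg A ≤ 4 d` and `deg B ≤ 6 d` (and this fails for `d - 1`), the discriminant is not zero, and there is
no prime `P` with `P ^ 4 ∣ A` and `P ^ 6 ∣ B`. -/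
def IsMinimal (d : ℕ) (A B : k[X]) : Prop :=
  A.natDegree ≤ 4 * d ∧ B.natDegree ≤ 6 * d ∧
    (0 < d → ¬ (A.natDegree + 4 ≤ 4 * d ∧ B.natDegree + 6 ≤ 6 * d)) ∧
    4 * A ^ 3 + 27 * B ^ 2 ≠ 0 ∧ ∀ P : k[X], Irreducible P → ¬ (P ^ 4 ∣ A ∧ P ^ 6 ∣ B)

/-- `y ^ 2 = x ^ 3 + A x + B` is a minimal equation of the curve `y ^ 2 = x ^ 3 + a x + b`. -/
def IsMinimalEquation (a b : RatFunc k) (d : ℕ) (A B : k[X]) : Prop :=
  IsMinimal d A B ∧ ∃ w : RatFunc k, w ≠ 0 ∧ algebraMap k[X] (RatFunc k) A = w ^ 4 * a ∧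
    algebraMap k[X] (RatFunc k) B = w ^ 6 * b

/-- `L(T, E) = ∏ (1 - q β_i T)` has degree `N = deg (conductor) - 4` and all `β_i` have absolute value
one. -/
def IsSpectrum (d : ℕ) (A B : k[X]) {N : ℕ} (β : Fin N → ℂ) : Prop :=
  N + 4 = conductorDegree d A B ∧ (∀ i, ‖β i‖ = 1) ∧
    ∀ m : ℕ, 0 < m → (logCoeff d A B m : ℂ) = -((Nat.card k : ℂ) ^ m * ∑ i, β i ^ m)

open Classical in
/-- The `L`-function of `y ^ 2 = x ^ 3 + a x + b` satisfies the Weil conjectures and vanishes exactly to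
the order `r` at `T = 1 / q`. -/
def OrderIs (a b : RatFunc k) (r : ℕ) : Prop :=
  ∃ (d : ℕ) (A B : k[X]), IsMinimalEquation a b d A B ∧
    ∃ (N : ℕ) (β : Fin N → ℂ), IsSpectrum d A B β ∧ r = (Finset.univ.filter fun i => β i = 1).card

/-- The degree of the conductor of `y ^ 2 = x ^ 3 + a x + b` is odd. -/
def OddConductor (a b : RatFunc k) : Prop :=
  ∃ (d : ℕ) (A B : k[X]), IsMinimalEquation a b d A B ∧ Odd (conductorDegree d A B)

end defs

section proof

open Pool.Agent.TH180.RT Pool.Agent.NH4.SB Pool.Agent.NH34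

variable {k : Type} [Field k]

theorem ord_eq (a b : RatFunc k) (r : ℕ) : OrderIs a b r ↔ CT.Ords a b r := Iff.rfl

theorem odd_eq (a b : RatFunc k) : OddConductor a b ↔ CT.OddC a b := Iff.rfl

theorem S_eq [Finite k] (B : ℝ) : S k B = ∅ ∨ ∃ (_ : Fintype k) (_ : DecidableEq k) (n : ℕ),
    S k B = ((Sn k n : Finset (RatFunc k × RatFunc k)) : Set (RatFunc k × RatFunc k)) := by
  classical
  let _ : Fintype k := Fintype.ofFinite k
  have hq : 1 < Nat.card k := Finite.one_lt_card
  have hq' : (1 : ℝ) ≤ Nat.card k := by exact_mod_cast hq.le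
  by_cases hB : B < 1
  · left
    rw [Set.eq_empty_iff_forall_notMem]
    intro x hx
    have h1 : height x.1 ≤ B := hx.1
    have h2 : (1 : ℝ) ≤ height x.1 := one_le_pow₀ hq'
    linarith
  · right
    push Not at hB
    refine ⟨inferInstance, inferInstance, Nat.log (Nat.card k) ⌊B⌋₊, ?_⟩
    have h1 : ⌊B⌋₊ ≠ 0 := by
      have := Nat.le_floor (α := ℝ) (n := 1) (a := B) (by exact_mod_cast hB)
      omega
    have h2 : ∀ x : RatFunc k, height x ≤ B ↔ hgt x ≤ Nat.log (Nat.card k) ⌊B⌋₊ := by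
      intro x
      rw [Nat.le_log_iff_pow_le hq h1, Nat.le_floor_iff (by linarith)]
      unfold height hgt
      push_cast
      exact Iff.rfl
    ext x
    rw [Finset.mem_coe]
    unfold Sn S
    rw [Finset.mem_filter, Finset.mem_product, mem_Ht, mem_Ht, Set.mem_setOf_eq, h2, h2]
    tauto

theorem S_pow [Fintype k] [DecidableEq k] (n : ℕ) : S k ((Nat.card k : ℝ) ^ n) =
    ((Sn k n : Finset (RatFunc k × RatFunc k)) : Set (RatFunc k × RatFunc k)) := by
  classical
  have hq : 1 < Nat.card k := Finite.one_lt_card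
  have hq' : (1 : ℝ) < Nat.card k := by exact_mod_cast hq
  have h2 : ∀ x : RatFunc k, height x ≤ (Nat.card k : ℝ) ^ n ↔ hgt x ≤ n := by
    intro x
    unfold height hgt
    exact pow_le_pow_iff_right₀ hq'
  ext x
  rw [Finset.mem_coe]
  unfold Sn S
  rw [Finset.mem_filter, Finset.mem_product, mem_Ht, mem_Ht, Set.mem_setOf_eq, h2, h2]
  tauto

theorem fin_S [Finite k] (B : ℝ) : (S k B).Finite := by
  rcases S_eq (k := k) B with h | ⟨_, _, n, h⟩
  · rw [h]
    exact Set.finite_empty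
  · rw [h]
    exact Finset.finite_toSet _

open Classical in
theorem nc (M : Finset (RatFunc k × RatFunc k)) (p : RatFunc k × RatFunc k → Prop) :
    {x ∈ (M : Set (RatFunc k × RatFunc k)) | p x}.ncard = (M.filter p).card := by
  rw [← Set.ncard_coe_finset]
  congr 1
  ext x
  simp

theorem par (p : ℕ → Prop) : (∃ r, Even r ∧ p r) ↔ ∃ r, r % 2 = 0 ∧ p r :=
  exists_congr fun r => by rw [Nat.even_iff]

theorem par' (p : ℕ → Prop) : (∃ r, Odd r ∧ p r) ↔ ∃ r, r % 2 = 1 ∧ p r :=
  exists_congr fun r => by rw [Nat.odd_iff]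

theorem uniq [Finite k] (h6 : (6 : k) ≠ 0) (a b : RatFunc k) (r r' : ℕ) (h : OrderIs a b r)
    (h' : OrderIs a b r') : r = r' := by
  classical
  let _ : Fintype k := Fintype.ofFinite k
  exact CT.asm_unique CT.u1 CT.u2 CT.u3 k h6 a b r r' h h'

open Classical in
theorem eqSn (k : Type) [Field k] [Fintype k] [DecidableEq k] (h6 : (6 : k) ≠ 0) (n : ℕ) :
    ((Sn k n).filter fun x : RatFunc k × RatFunc k => CT.OddC x.1 x.2 ∧ ∃ r, r % 2 = 0 ∧ CT.Ords x.1 x.2 r).card =
    ((Sn k n).filter fun x : RatFunc k × RatFunc k => CT.OddC x.1 x.2 ∧ ∃ r, r % 2 = 1 ∧ CT.Ords x.1 x.2 r).card :=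
  CT.asm_eq CT.u1 CT.w6 (CT.f1 CT.w1 CT.w2 CT.w3 CT.w4 CT.w5 CT.w6 CT.w7 CT.w8 CT.w9) k h6 n

open Classical in
theorem manySn (k : Type) [Field k] [Fintype k] [DecidableEq k] (h6 : (6 : k) ≠ 0) (n : ℕ)
    (hn : Odd n) : (1 - 30 / (Nat.card k : ℝ)) * ((Sn k n).card : ℝ) ≤
      (((Sn k n).filter fun x : RatFunc k × RatFunc k => CT.OddC x.1 x.2).card : ℝ) :=
  CT.asm_many (CT.b9 CT.b1 CT.b2 CT.b3 CT.b4 CT.b4' CT.b5a CT.b5 CT.b6 CT.b7a CT.b7b CT.b7 CT.b8)
    CT.g1 CT.g2 CT.g3 k h6 n hn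

open Classical in
/-- a function `r` which is equidistributed modulo two on a large part -/
theorem half {Ω : Type} (M : Finset Ω) (p : Ω → Prop) (r : Ω → ℕ) (δ : ℝ)
    (he : (M.filter fun x => p x ∧ r x % 2 = 0).card = (M.filter fun x => p x ∧ r x % 2 = 1).card)
    (ho : (1 - δ) * (M.card : ℝ) ≤ ((M.filter fun x => p x).card : ℝ)) :
    |((M.filter fun x => r x % 2 = 0).card : ℝ) - (M.card : ℝ) / 2| ≤ δ / 2 * (M.card : ℝ) ∧
    (1 / 2 - δ / 2) * (M.card : ℝ) ≤ ∑ x ∈ M, (r x : ℝ) := by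
  have hs : ((M.filter fun x => r x % 2 = 0).card : ℝ) +
      ((M.filter fun x => r x % 2 = 1).card : ℝ) = (M.card : ℝ) := by
    have h1 := Finset.card_filter_add_card_filter_not (s := M) (fun x => r x % 2 = 0)
    have h2 : (M.filter fun x => ¬ r x % 2 = 0) = M.filter fun x => r x % 2 = 1 := by
      refine Finset.filter_congr fun x _ => ?_
      omega
    rw [h2] at h1
    exact_mod_cast h1
  have hp : ((M.filter fun x => p x ∧ r x % 2 = 0).card : ℝ) +
      ((M.filter fun x => p x ∧ r x % 2 = 1).card : ℝ) = ((M.filter fun x => p x).card : ℝ) := by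
    have h1 := Finset.card_filter_add_card_filter_not (s := M.filter fun x => p x)
      (fun x => r x % 2 = 0)
    have h2 : ((M.filter fun x => p x).filter fun x => ¬ r x % 2 = 0) =
        M.filter fun x => p x ∧ r x % 2 = 1 := by
      ext x
      rw [Finset.mem_filter, Finset.mem_filter, Finset.mem_filter]
      constructor
      · rintro ⟨⟨a, b⟩, c⟩
        exact ⟨a, b, by omega⟩
      · rintro ⟨a, b, c⟩
        exact ⟨⟨a, b⟩, by omega⟩
    rw [h2, Finset.filter_filter] at h1
    exact_mod_cast h1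
  have he' : ((M.filter fun x => p x ∧ r x % 2 = 0).card : ℝ) =
      ((M.filter fun x => p x ∧ r x % 2 = 1).card : ℝ) := by exact_mod_cast he
  have l0 : ((M.filter fun x => p x ∧ r x % 2 = 0).card : ℝ) ≤
      ((M.filter fun x => r x % 2 = 0).card : ℝ) := by
    have h : (M.filter fun x => p x ∧ r x % 2 = 0) ⊆ M.filter fun x => r x % 2 = 0 := by
      intro x hx
      rw [Finset.mem_filter] at hx ⊢
      exact ⟨hx.1, hx.2.2⟩
    exact_mod_cast Finset.card_le_card h
  have l1 : ((M.filter fun x => p x ∧ r x % 2 = 1).card : ℝ) ≤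
      ((M.filter fun x => r x % 2 = 1).card : ℝ) := by
    have h : (M.filter fun x => p x ∧ r x % 2 = 1) ⊆ M.filter fun x => r x % 2 = 1 := by
      intro x hx
      rw [Finset.mem_filter] at hx ⊢
      exact ⟨hx.1, hx.2.2⟩
    exact_mod_cast Finset.card_le_card h
  refine ⟨?_, ?_⟩
  · rw [abs_le]
    constructor <;> linarith
  · have h1 : ((M.filter fun x => r x % 2 = 1).card : ℝ) ≤ ∑ x ∈ M, (r x : ℝ) := by
      rw [Finset.card_filter]
      push_cast
      refine Finset.sum_le_sum fun x _ => ?_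
      split_ifs with h0
      · have : 1 ≤ r x := by omega
        exact_mod_cast this
      · positivity
    linarith

end proof

/-- **Main theorem.** Let `k` be a finite field with `q` elements, of characteristic at least `5`.
* The order of vanishing is unique.
* For every `B`, exactly half of the curves of `S_B` with a conductor of odd degree (and an
  `L`-function satisfying the Weil conjectures) have even order of vanishing.
* If `B = q ^ n`, `n` odd, then at least `(1 - 30 / q) #S_B` of the curves have a conductor of odd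
  degree; the numbers of the curves of even and of odd order of vanishing differ by at most
  `(30 / q) #S_B`; if `r` is any function on `S_B` which is the order of vanishing on the curves with a
  conductor of odd degree, then `r` is even for `#S_B / 2` of the curves up to `(15 / q) #S_B`, and the
  average of `r` is at least `1 / 2 - 15 / q`. -/
theorem result : ∀ (k : Type) [Field k] [Finite k], (6 : k) ≠ 0 →
    (∀ (a b : RatFunc k) (r r' : ℕ), OrderIs a b r → OrderIs a b r' → r = r') ∧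
    (∀ B : ℝ, (S k B).Finite ∧
      {x ∈ S k B | OddConductor x.1 x.2 ∧ ∃ r, Even r ∧ OrderIs x.1 x.2 r}.ncard =
        {x ∈ S k B | OddConductor x.1 x.2 ∧ ∃ r, Odd r ∧ OrderIs x.1 x.2 r}.ncard) ∧
    ∀ (n : ℕ) (B : ℝ), Odd n → B = (Nat.card k : ℝ) ^ n →
      (1 - 30 / (Nat.card k : ℝ)) * ((S k B).ncard : ℝ) ≤
        ({x ∈ S k B | OddConductor x.1 x.2}.ncard : ℝ) ∧
      |({x ∈ S k B | ∃ r, Even r ∧ OrderIs x.1 x.2 r}.ncard : ℝ) -
        ({x ∈ S k B | ∃ r, Odd r ∧ OrderIs x.1 x.2 r}.ncard : ℝ)| ≤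
        30 / (Nat.card k : ℝ) * ((S k B).ncard : ℝ) ∧
      ∀ r : RatFunc k × RatFunc k → ℕ,
        (∀ x ∈ S k B, OddConductor x.1 x.2 → OrderIs x.1 x.2 (r x)) →
        |({x ∈ S k B | Even (r x)}.ncard : ℝ) - ((S k B).ncard : ℝ) / 2| ≤
          15 / (Nat.card k : ℝ) * ((S k B).ncard : ℝ) ∧
        (1 / 2 - 15 / (Nat.card k : ℝ)) * ((S k B).ncard : ℝ) ≤ ∑ᶠ x ∈ S k B, (r x : ℝ) := by
  intro k _ _ h6
  classical
  let _ : Fintype k := Fintype.ofFinite k
  refine ⟨fun a b r r' h h' => uniq h6 a b r r' h h', fun B => ⟨fin_S B, ?_⟩, ?_⟩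
  · rcases S_eq (k := k) B with h | ⟨i1, i2, n, h⟩
    · rw [h]
      simp
    · have e := @eqSn k _ i1 i2 h6 n
      rw [h, nc, nc]
      simp only [par, par', ord_eq, odd_eq]
      convert e
  · intro n B hn hB
    subst hB
    have hS := S_pow (k := k) n
    have hm := manySn k h6 n hn
    have hd := Pool.Agent.NH34.CT.asm_diff k n (30 / (Nat.card k : ℝ)) (eqSn k h6 n) hm
    refine ⟨?_, ?_, ?_⟩
    · rw [hS, nc, Set.ncard_coe_finset]
      simp only [odd_eq]
      convert hm
    · rw [hS, nc, nc, Set.ncard_coe_finset]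
      simp only [par, par', ord_eq]
      convert hd
    · intro r hr
      have hr' : ∀ x ∈ Pool.Agent.NH4.SB.Sn k n, Pool.Agent.NH34.CT.OddC x.1 x.2 →
          Pool.Agent.NH34.CT.Ords x.1 x.2 (r x) := by
        intro x hx
        exact hr x (by rw [hS]; exact Finset.mem_coe.2 hx)
      have f : ∀ ε : ℕ, ((Pool.Agent.NH4.SB.Sn k n).filter fun x =>
          Pool.Agent.NH34.CT.OddC x.1 x.2 ∧ ∃ r, r % 2 = ε ∧ Pool.Agent.NH34.CT.Ords x.1 x.2 r) =
          (Pool.Agent.NH4.SB.Sn k n).filter fun x =>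
            Pool.Agent.NH34.CT.OddC x.1 x.2 ∧ r x % 2 = ε := by
        intro ε
        refine Finset.filter_congr fun x hx => ?_
        constructor
        · rintro ⟨h0, r', h1, h2⟩
          refine ⟨h0, ?_⟩
          rw [← uniq h6 x.1 x.2 r' (r x) h2 (hr' x hx h0)]
          exact h1
        · rintro ⟨h0, h⟩
          exact ⟨h0, r x, h, hr' x hx h0⟩
      have he := eqSn k h6 n
      rw [f 0, f 1] at he
      obtain ⟨a1, a2⟩ := half (Pool.Agent.NH4.SB.Sn k n)
        (fun x => Pool.Agent.NH34.CT.OddC x.1 x.2) r (30 / (Nat.card k : ℝ)) he hm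
      have e15 : 30 / (Nat.card k : ℝ) / 2 = 15 / (Nat.card k : ℝ) := by ring
      rw [e15] at a1 a2
      refine ⟨?_, ?_⟩
      · rw [hS, nc, Set.ncard_coe_finset]
        simp only [Nat.even_iff]
        convert a1
      · rw [hS, finsum_mem_coe_finset, Set.ncard_coe_finset]
        exact a2

end Pool.Agent.Results.MP_81dc49_nt.ParityConstantTwists
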