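import Pool.Agent.NH4.SB.Pairs

/-!
# The family `S_B` over `k(t)`: large ranks are superexponentially rare

Let `k` be a finite field with `q` elements, of characteristic at least `5`, and `F = k(t)`. For a
real number `B` let `S_B` be the set of all pairs `(a, b)` in `F × F` with `H(a) ≤ B`, `H(b) ≤ B` and
`4 a ^ 3 + 27 b ^ 2 ≠ 0`, where `H` is the Weil height. We study the curves
`y ^ 2 = x ^ 3 + a x + b` for `(a, b)` in `S_B`.
-/

set_option autoImplicit false
set_option linter.all false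
set_option maxHeartbeats 1000000

open Polynomial

namespace Pool.Agent.Results.MP_81dc49_nt.RankTails

section defs

variable {k : Type} [Field k]

/-- The multiplicative height `H(x) = q ^ (max (deg u) (deg v))` of `x = u / v` in `k(t)`, in lowest
terms. -/
noncomputable def height (x : RatFunc k) : ℝ :=
  (Nat.card k : ℝ) ^ max x.num.natDegree x.denom.natDegree

/-- The pairs `(a, b)` with `H(a) ≤ B` and `H(b) ≤ B` for which `y ^ 2 = x ^ 3 + a x + b` is an elliptic
curve over `k(t)`. -/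
def S (k : Type) [Field k] (B : ℝ) : Set (RatFunc k × RatFunc k) :=
  {x | height x.1 ≤ B ∧ height x.2 ≤ B ∧ 4 * x.1 ^ 3 + 27 * x.2 ^ 2 ≠ 0}

/-- The number of solutions of `y ^ 2 = x ^ 3 + a x + b` in a ring. -/
noncomputable def affinePoints (R : Type) [CommRing R] (a b : R) : ℕ :=
  Nat.card {z : R × R // z.2 ^ 2 = z.1 ^ 3 + a * z.1 + b}

/-- `α ^ j + β ^ j`, where `α + β = a` and `α β = c`. -/
def powerTrace (a c : ℤ) (j : ℕ) : ℤ :=
  ((!![a, -c; 1, 0] : Matrix (Fin 2) (Fin 2) ℤ) ^ j).trace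

open Classical in
/-- The number `α ^ j + β ^ j` at the place of `k(t)` given by the prime `P`: the Euler factor of
`y ^ 2 = x ^ 3 + A x + B` is `(1 - α T) (1 - β T) = 1 - a T + c T ^ 2` in `T = q_P ^ (-s)`, with
`a = q_P - (number of affine points modulo P)`, `q_P = q ^ (deg P)`, and `c = q_P` for good reduction,
`c = 0` for bad reduction. -/
noncomputable def primeTerm (A B P : k[X]) (j : ℕ) : ℤ :=
  powerTrace
    ((Nat.card k : ℤ) ^ P.natDegree -
      affinePoints (AdjoinRoot P) (AdjoinRoot.mk P A) (AdjoinRoot.mk P B))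
    (if P ∣ 4 * A ^ 3 + 27 * B ^ 2 then 0 else (Nat.card k : ℤ) ^ P.natDegree) j

open Classical in
/-- The same at the infinite place, where the reduction is `y ^ 2 = x ^ 3 + a x + b`. -/
noncomputable def infinityTerm (a b : k) (j : ℕ) : ℤ :=
  powerTrace ((Nat.card k : ℤ) - affinePoints k a b)
    (if 4 * a ^ 3 + 27 * b ^ 2 = 0 then 0 else (Nat.card k : ℤ)) j

open Classical in
/-- The number `S_m` in `L(T, E) = exp (∑ S_m T ^ m / m)`: the sum over the places `v` with
`deg v ∣ m` of `deg v (α_v ^ (m / deg v) + β_v ^ (m / deg v))`, for the minimal equation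
`y ^ 2 = x ^ 3 + A x + B` with `deg A ≤ 4 d` and `deg B ≤ 6 d`. -/
noncomputable def logCoeff (d : ℕ) (A B : k[X]) (m : ℕ) : ℤ :=
  infinityTerm (A.coeff (4 * d)) (B.coeff (6 * d)) m +
    ∑ᶠ P : k[X], if P.Monic ∧ Irreducible P ∧ P.natDegree ∣ m then
      (P.natDegree : ℤ) * primeTerm A B P (m / P.natDegree) else 0

open Classical in
/-- The exponent of the conductor at `P`: two for additive, one for multiplicative reduction. -/
noncomputable def conductorAt (A B P : k[X]) : ℕ :=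
  if P ∣ 4 * A ^ 3 + 27 * B ^ 2 then (if P ∣ A then 2 else 1) else 0

open Classical in
/-- The exponent of the conductor at the infinite place. -/
noncomputable def conductorAtInfinity (a b : k) : ℕ :=
  if 4 * a ^ 3 + 27 * b ^ 2 = 0 then (if a = 0 then 2 else 1) else 0

open Classical in
/-- The degree of the conductor. -/
noncomputable def conductorDegree (d : ℕ) (A B : k[X]) : ℕ :=
  conductorAtInfinity (A.coeff (4 * d)) (B.coeff (6 * d)) +
    ∑ᶠ P : k[X], if P.Monic ∧ Irreducible P then P.natDegree * conductorAt A B P else 0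

/-- `y ^ 2 = x ^ 3 + A x + B` is a minimal equation of an elliptic curve over `k(t)`:
`deg A ≤ 4 d` and `deg B ≤ 6 d` (and this fails for `d - 1`), the discriminant is not zero, and there is
no prime `P` with `P ^ 4 ∣ A` and `P ^ 6 ∣ B`. -/
def IsMinimal (d : ℕ) (A B : k[X]) : Prop :=
  A.natDegree ≤ 4 * d ∧ B.natDegree ≤ 6 * d ∧
    (0 < d → ¬ (A.natDegree + 4 ≤ 4 * d ∧ B.natDegree + 6 ≤ 6 * d)) ∧
    4 * A ^ 3 + 27 * B ^ 2 ≠ 0 ∧ ∀ P : k[X], Irreducible P → ¬ (P ^ 4 ∣ A ∧ P ^ 6 ∣ B)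

/-- `y ^ 2 = x ^ 3 + A x + B` is a minimal equation of the curve `y ^ 2 = x ^ 3 + a x + b`. -/
def IsMinimalEquation (a b : RatFunc k) (d : ℕ) (A B : k[X]) : Prop :=
  IsMinimal d A B ∧ ∃ w : RatFunc k, w ≠ 0 ∧ algebraMap k[X] (RatFunc k) A = w ^ 4 * a ∧
    algebraMap k[X] (RatFunc k) B = w ^ 6 * b

/-- `L(T, E) = ∏ (1 - q β_i T)` has degree `N = deg (conductor) - 4` and all `β_i` have absolute value
one. -/
def IsSpectrum (d : ℕ) (A B : k[X]) {N : ℕ} (β : Fin N → ℂ) : Prop :=
  N + 4 = conductorDegree d A B ∧ (∀ i, ‖β i‖ = 1) ∧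
    ∀ m : ℕ, 0 < m → (logCoeff d A B m : ℂ) = -((Nat.card k : ℂ) ^ m * ∑ i, β i ^ m)

open Classical in
/-- The `L`-function of `y ^ 2 = x ^ 3 + a x + b` satisfies the Weil conjectures and vanishes to order
at least `R` at `T = 1 / q`. -/
def OrderAtLeast (a b : RatFunc k) (R : ℕ) : Prop :=
  ∃ (d : ℕ) (A B : k[X]), IsMinimalEquation a b d A B ∧
    ∃ (N : ℕ) (β : Fin N → ℂ), IsSpectrum d A B β ∧ R ≤ (Finset.univ.filter fun i => β i = 1).card

open Classical in
/-- The rank of the group of the `k(t)`-rational points of `y ^ 2 = x ^ 3 + a x + b`. -/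
noncomputable def rank (a b : RatFunc k) : ℕ :=
  Module.finrank ℤ (WeierstrassCurve.mk 0 0 0 a b : WeierstrassCurve (RatFunc k)).toAffine.Point

/-- The proportion of the pairs in `S_B` with the property `p` is at most `δ`. -/
def Proportion (B : ℝ) (p : RatFunc k → RatFunc k → Prop) (δ : ℝ) : Prop :=
  ({x ∈ S k B | p x.1 x.2}.ncard : ℝ) ≤ δ * (S k B).ncard

/-- The proportion of the pairs in `S_B` with `r ≥ R` is at most `2 (44 / R) ^ ⌊R / 48⌋` for all
`R ≥ 1`, and the average of `s ^ r` over `S_B` is at most `C(s)` for all `s ≥ 0`. -/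
def Tails (B : ℝ) (r : RatFunc k → RatFunc k → ℕ) (C : ℝ → ℝ) : Prop :=
  (∀ R : ℕ, 0 < R → Proportion B (fun a b => R ≤ r a b) (2 * (44 / (R : ℝ)) ^ (R / 48))) ∧
  ∀ s : ℝ, 0 ≤ s → ∑ᶠ x ∈ S k B, s ^ r x.1 x.2 ≤ C s * (S k B).ncard

/-- The function `r` is at most the order of vanishing at `T = 1 / q`, if it is not zero. -/
def AtMostOrder (r : RatFunc k → RatFunc k → ℕ) : Prop :=
  ∀ a b : RatFunc k, 4 * a ^ 3 + 27 * b ^ 2 ≠ 0 → r a b = 0 ∨ OrderAtLeast a b (r a b)

end defs

section proof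

open Pool.Agent.TH180.RT Pool.Agent.NH4.SB

variable {k : Type} [Field k]

theorem primeTerm_eq (A B P : k[X]) (j : ℕ) : primeTerm A B P j = locP A B P j := rfl

theorem infinityTerm_eq (a b : k) (j : ℕ) : infinityTerm a b j = locI a b j := rfl

theorem logCoeff_eq (d : ℕ) (A B : k[X]) (m : ℕ) : logCoeff d A B m = psum d A B m := rfl

theorem conductorDegree_eq (d : ℕ) (A B : k[X]) : conductorDegree d A B = cdeg d A B := rfl

theorem min_iff (d : ℕ) (A B : k[X]) : IsMinimal d A B ↔ IsMin d A B := Iff.rfl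

theorem ord_iff (a b : RatFunc k) (R : ℕ) : OrderAtLeast a b R ↔ NH4.SB.Ord a b R := by
  unfold OrderAtLeast NH4.SB.Ord IsMinimalEquation IsSpectrum
  constructor
  · rintro ⟨d, A, B, ⟨h1, w, h2, h3, h4⟩, N, β, ⟨h5, h6, h7⟩, h8⟩
    exact ⟨d, A, B, w, h2, h3, h4, h1, N, β, h5, h6, h7, h8⟩
  · rintro ⟨d, A, B, w, h2, h3, h4, h1, N, β, h5, h6, h7, h8⟩
    exact ⟨d, A, B, ⟨h1, w, h2, h3, h4⟩, N, β, ⟨h5, h6, h7⟩, h8⟩

theorem mono {R R' : ℕ} {a b : RatFunc k} (h : OrderAtLeast a b R') (hR : R ≤ R') :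
    OrderAtLeast a b R := by
  obtain ⟨d, A, B, h1, N, β, h2, h3⟩ := h
  exact ⟨d, A, B, h1, N, β, h2, hR.trans h3⟩

theorem S_eq [Finite k] (B : ℝ) : S k B = ∅ ∨ ∃ (_ : Fintype k) (_ : DecidableEq k) (n : ℕ),
    S k B = ((Sn k n : Finset (RatFunc k × RatFunc k)) : Set (RatFunc k × RatFunc k)) := by
  classical
  let _ : Fintype k := Fintype.ofFinite k
  have hq : 1 < Nat.card k := Finite.one_lt_card
  have hq' : (1 : ℝ) ≤ Nat.card k := by exact_mod_cast hq.le
  by_cases hB : B < 1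
  · left
    rw [Set.eq_empty_iff_forall_notMem]
    intro x hx
    have h1 : height x.1 ≤ B := hx.1
    have h2 : (1 : ℝ) ≤ height x.1 := one_le_pow₀ hq'
    linarith
  · right
    push Not at hB
    refine ⟨inferInstance, inferInstance, Nat.log (Nat.card k) ⌊B⌋₊, ?_⟩
    have h1 : ⌊B⌋₊ ≠ 0 := by
      have := Nat.le_floor (α := ℝ) (n := 1) (a := B) (by exact_mod_cast hB)
      omega
    have h2 : ∀ x : RatFunc k, height x ≤ B ↔ hgt x ≤ Nat.log (Nat.card k) ⌊B⌋₊ := by
      intro x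
      rw [Nat.le_log_iff_pow_le hq h1, Nat.le_floor_iff (by linarith)]
      unfold height hgt
      push_cast
      exact Iff.rfl
    ext x
    rw [Finset.mem_coe]
    unfold Sn S
    rw [Finset.mem_filter, Finset.mem_product, mem_Ht, mem_Ht, Set.mem_setOf_eq, h2, h2]
    tauto

theorem fin_S [Finite k] (B : ℝ) : (S k B).Finite := by
  rcases S_eq (k := k) B with h | ⟨_, _, n, h⟩
  · rw [h]
    exact Set.finite_empty
  · rw [h]
    exact Finset.finite_toSet _

theorem prop_order [Finite k] (h6 : (6 : k) ≠ 0) (B : ℝ) {R : ℕ} (hR : 0 < R) :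
    Proportion B (fun a b : RatFunc k => OrderAtLeast a b R) (2 * (44 / (R : ℝ)) ^ (R / 48)) := by
  classical
  unfold Proportion
  rcases S_eq (k := k) B with h | ⟨_, _, n, h⟩
  · rw [h]
    simp
  · have h1 := tail_pairs h6 n hR
    have e1 : {x ∈ S k B | OrderAtLeast x.1 x.2 R} =
        (((Sn k n).filter fun x => NH4.SB.Ord x.1 x.2 R : Finset (RatFunc k × RatFunc k)) :
          Set (RatFunc k × RatFunc k)) := by
      ext x
      rw [Finset.mem_coe, Finset.mem_filter, h, Set.mem_sep_iff, Finset.mem_coe, ord_iff]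
    rw [e1, h, Set.ncard_coe_finset, Set.ncard_coe_finset]
    unfold tl at h1
    convert h1

theorem prop_mono [Finite k] {B : ℝ} {p p' : RatFunc k → RatFunc k → Prop} {δ : ℝ}
    (h : Proportion B p δ) (hp : ∀ x ∈ S k B, p' x.1 x.2 → p x.1 x.2) : Proportion B p' δ := by
  unfold Proportion at h ⊢
  refine le_trans ?_ h
  have h1 : {x ∈ S k B | p' x.1 x.2} ⊆ {x ∈ S k B | p x.1 x.2} :=
    fun x hx => ⟨hx.1, hp _ hx.1 hx.2⟩
  exact_mod_cast Set.ncard_le_ncard h1 ((fin_S B).subset fun x hx => hx.1)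

theorem tails_of [Finite k] (h6 : (6 : k) ≠ 0) (B : ℝ) {r : RatFunc k → RatFunc k → ℕ}
    (hr : AtMostOrder r) : Tails B r (cst 48 2) := by
  classical
  have h1 : ∀ R : ℕ, 0 < R →
      Proportion B (fun a b => R ≤ r a b) (2 * (44 / (R : ℝ)) ^ (R / 48)) := by
    intro R hR
    refine prop_mono (prop_order h6 B hR) fun x hx h => ?_
    rcases hr x.1 x.2 hx.2.2 with h0 | h0
    · rw [h0] at h
      omega
    · exact mono h0 h
  refine ⟨h1, fun s hs => ?_⟩
  rw [finsum_mem_eq_finite_toFinset_sum _ (fin_S B), Set.ncard_eq_toFinset_card _ (fin_S B)]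
  refine exp_moment (fin_S B).toFinset (fun x : RatFunc k × RatFunc k => r x.1 x.2) (by norm_num)
    (by norm_num) ?_ hs
  intro R hR
  have h2 := h1 R hR
  unfold Proportion at h2
  rw [Set.ncard_eq_toFinset_card _ (fin_S B)] at h2
  refine le_trans (le_of_eq ?_) h2
  congr 1
  rw [← Set.ncard_coe_finset]
  congr 1
  ext x
  simp

end proof

/-- **Main theorem.** Let `k` be a finite field with `q` elements, of characteristic at least `5`. For
every `B`, the proportion of the pairs `(a, b)` in `S_B` for which the `L`-function of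
`y ^ 2 = x ^ 3 + a x + b` over `k(t)` vanishes to order at least `R` at `T = 1 / q` is at most
`2 (44 / R) ^ ⌊R / 48⌋`. If `r` is any function bounded by the order, for example the rank, the
same holds for the pairs with `r ≥ R`, and the average of `s ^ r` over `S_B` is at most `C(s)`, for all
`s ≥ 0`, with `C(s)` independent of `k` and `B`. -/
theorem result : ∃ C : ℝ → ℝ, ∀ (k : Type) [Field k] [Finite k], (6 : k) ≠ 0 → ∀ B : ℝ,
    (S k B).Finite ∧
    (∀ R : ℕ, 0 < R →
      Proportion B (fun a b : RatFunc k => OrderAtLeast a b R) (2 * (44 / (R : ℝ)) ^ (R / 48))) ∧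
    (∀ r : RatFunc k → RatFunc k → ℕ, AtMostOrder r → Tails B r C) ∧
    (AtMostOrder (rank (k := k)) → Tails B (rank (k := k)) C) := by
  refine ⟨Pool.Agent.TH180.RT.cst 48 2, fun k _ _ h6 B => ⟨fin_S B, fun R hR => prop_order h6 B hR,
    fun r hr => tails_of h6 B hr, fun hr => tails_of h6 B hr⟩⟩

end Pool.Agent.Results.MP_81dc49_nt.RankTails
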