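import Pool.Agent.Results.MP_a3f657_nt.EightCurvesByHeight

/-!
# Ranks of the curves `y² = x (x - a² M) (x - b² M)`, `a² + c² = b²`, in the order by height

The family of the hand-in `MP_a3f657_nt.EightCurvesByHeight`: all the curves
`E_{T,M} : y² = x (x - a² M) (x - b² M)`, `T = (a, b, c)` any primitive Pythagorean triple, `M` any squarefree
integer prime to `3`, ordered by the naive height. A positive proportion is in the class `Cls`, and in this
class at least `28.87%` of the curves have rank `0`, at least `86.6%` have rank at most `2`, at least `99.4%`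
rank at most `4`; for every `R` the lower density of the rank at most `2 R` is at least
`c(0) + ... + c(R)`, which tends to `1` very quickly.
-/

set_option autoImplicit false

open Filter Topology

namespace Pool.Agent.Results.MP_81dc49_nt.RanksEightCurvesByHeight

open Pool.Agent.Results.MP_a3f657_nt.TwoSelmerLawPythagorean
open Pool.Agent.Results.MP_a3f657_nt.EightCurvesByHeight

/-- the Mordell-Weil rank of the curve of a pair -/
noncomputable def rank (z : (ℤ × ℤ × ℤ) × ℤ) : ℕ := Module.finrank ℤ (curve z).toAffine.Point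

section proof

theorem fin_set (P : (ℤ × ℤ × ℤ) × ℤ → Prop) (X : ℕ) :
    {z : (ℤ × ℤ × ℤ) × ℤ | z ∈ Pairs ∧ height z ≤ X ∧ P z}.Finite :=
  ((all_le.choose_spec.2 X).1).subset fun _ h => ⟨h.1, h.2.1⟩

theorem number_mono {P P' : (ℤ × ℤ × ℤ) × ℤ → Prop} (h : ∀ z ∈ Pairs, P z → P' z) (X : ℕ) :
    number P X ≤ number P' X := by
  unfold number
  refine Nat.cast_le.2 (Set.ncard_le_ncard ?_ (fin_set _ X))
  rintro z ⟨h1, h2, h3⟩
  exact ⟨h1, h2, h z h1 h3⟩

theorem number_sum (R X : ℕ) :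
    ∑ r ∈ Finset.range R, number (fun z => Cls z ∧ selTwo (curve z) = 4 ^ r) X =
      number (fun z => Cls z ∧ ∃ r < R, selTwo (curve z) = 4 ^ r) X := by
  induction R with
  | zero =>
    rw [Finset.sum_range_zero]
    unfold number
    have h : {z : (ℤ × ℤ × ℤ) × ℤ | z ∈ Pairs ∧ height z ≤ X ∧ (Cls z ∧
        ∃ r < 0, selTwo (curve z) = 4 ^ r)} = ∅ := by
      refine Set.eq_empty_iff_forall_notMem.2 ?_
      rintro z ⟨-, -, -, r, hr, -⟩
      exact absurd hr (Nat.not_lt_zero r)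
    rw [h, Set.ncard_empty, Nat.cast_zero]
  | succ R ih =>
    rw [Finset.sum_range_succ, ih]
    unfold number
    rw [← Nat.cast_add, ← Set.ncard_union_eq ?_ (fin_set _ X) (fin_set _ X)]
    · congr 2
      ext z
      constructor
      · rintro (⟨h1, h2, h3, r, hr, h4⟩ | ⟨h1, h2, h3, h4⟩)
        · exact ⟨h1, h2, h3, r, by omega, h4⟩
        · exact ⟨h1, h2, h3, R, by omega, h4⟩
      · rintro ⟨h1, h2, h3, r, hr, h4⟩
        rcases Nat.lt_succ_iff_lt_or_eq.1 hr with h | h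
        · exact Or.inl ⟨h1, h2, h3, r, h, h4⟩
        · subst h
          exact Or.inr ⟨h1, h2, h3, h4⟩
    · rw [Set.disjoint_left]
      rintro z ⟨-, -, -, r, hr, h4⟩ ⟨-, -, -, h5⟩
      have h6 := Nat.pow_right_injective (le_refl 2 |>.trans (by norm_num : 2 ≤ 4)) (h4.symm.trans h5)
      omega

theorem ord_eq {a b c D : ℤ} (hT : Triple a b c) (hD : InClass a b c D) :
    2 ^ Module.finrank ℤ (E a b D).toAffine.Point *
      Nat.card {x : Pool.Agent.TH841.SH.D.Sha (E a b D) // x + x = 0} = selTwo (E a b D) := by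
  obtain ⟨e, c', hc, hT'⟩ := Pool.Agent.NH3.XT.t_PYT a b c hT.1 hT.2.1 hT.2.2.1 hT.2.2.2
  have h := Pool.Agent.NH3.XT.ords hT' one_ne_zero ((cls_iff hT' hc D).1 hD)
  rw [one_pow, mul_one] at h
  obtain ⟨-, h2, h3⟩ := h
  exact Nat.eq_of_mul_eq_mul_left (by norm_num) (h2.trans h3.symm)

theorem rank_le {z : (ℤ × ℤ × ℤ) × ℤ} (hz : z ∈ Pairs) (hC : Cls z) {r : ℕ}
    (h : selTwo (curve z) = 4 ^ r) : rank z ≤ 2 * r := by
  have h1 := ord_eq hz.2.2.2.1 hC
  have h2 : selTwo (E z.1.1 z.1.2.1 z.2) = 4 ^ r := h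
  rw [h2] at h1
  have h3 : 2 ^ rank z ∣ 2 ^ (2 * r) := by
    rw [pow_mul]
    exact Dvd.intro _ h1
  exact (Nat.pow_dvd_pow_iff_le_right (by norm_num)).1 h3

theorem low (R : ℕ) {ε : ℝ} (hε : 0 < ε) : ∀ᶠ X : ℕ in atTop,
    (∑ r ∈ Finset.range (R + 1), prob r - ε) * number Cls X ≤
      number (fun z => Cls z ∧ rank z ≤ 2 * R) X := by
  have h1 : Tendsto (fun X : ℕ => ∑ r ∈ Finset.range (R + 1),
      number (fun z => Cls z ∧ selTwo (curve z) = 4 ^ r) X / number Cls X) atTop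
      (𝓝 (∑ r ∈ Finset.range (R + 1), prob r)) :=
    tendsto_finsetSum _ fun r _ => (law_height r).1
  have h2 := h1.eventually (lt_mem_nhds (show ∑ r ∈ Finset.range (R + 1), prob r - ε <
    ∑ r ∈ Finset.range (R + 1), prob r by linarith))
  refine h2.mono fun X hX => ?_
  rw [← Finset.sum_div, number_sum] at hX
  have h3 : number (fun z => Cls z ∧ ∃ r < R + 1, selTwo (curve z) = 4 ^ r) X ≤
      number (fun z => Cls z ∧ rank z ≤ 2 * R) X := by
    refine number_mono (fun z hz h => ⟨h.1, ?_⟩) X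
    obtain ⟨hC, r, hr, h4⟩ := h
    have := rank_le hz hC h4
    omega
  refine le_trans ?_ h3
  have h0 : 0 ≤ number Cls X := Nat.cast_nonneg _
  rcases h0.eq_or_lt with h | h
  · rw [← h, mul_zero]
    exact Nat.cast_nonneg _
  · exact ((lt_div_iff₀ h).1 hX).le

theorem prob_eq (r : ℕ) : prob r = (1 / 2 : ℝ) ^ (r ^ 2) * prob 0 /
    (∏ i ∈ Finset.range r, (1 - (1 / 2 : ℝ) ^ (i + 1))) ^ 2 := by
  have h1 : prob r = _ := Pool.Agent.NH3.XT.SUM.cr_eq r
  have h0 : prob 0 = _ := Pool.Agent.NH3.XT.SUM.cr_eq 0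
  rw [Pool.Agent.NH3.XT.SUM.Q_zero] at h0
  have h2 : prob 0 = Pool.Agent.NH3.XT.SUM.c := by
    rw [h0]
    norm_num
  rw [h1, h2]
  rfl

theorem prob_one : prob 1 = 2 * prob 0 := by
  rw [prob_eq 1]
  norm_num [Finset.prod_range_succ]
  ring

theorem prob_two : prob 2 = 4 / 9 * prob 0 := by
  rw [prob_eq 2]
  norm_num [Finset.prod_range_succ]
  ring

end proof

/-- **Main theorem.** -/
theorem result :
    (∀ X : ℕ, {z : (ℤ × ℤ × ℤ) × ℤ | z ∈ Pairs ∧ height z ≤ X}.Finite) ∧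
    (∀ z ∈ Pairs, ∀ p : ℕ, p.Prime →
      ¬ ((p : ℤ) ^ 4 ∣ A z.1.1 z.1.2.1 z.2 ∧ (p : ℤ) ^ 6 ∣ B z.1.1 z.1.2.1 z.2)) ∧
    (∀ z ∈ Pairs, ∀ z' ∈ Pairs, curve z = curve z' → z = z') ∧
    (∃ δ : ℝ, 0 < δ ∧ ∀ᶠ X : ℕ in atTop,
      δ * number (fun _ => True) X ≤ number Cls X ∧ δ * (X : ℝ) ^ (1 / 6 : ℝ) ≤ number Cls X) ∧
    (∀ (R : ℕ) (ε : ℝ), 0 < ε → ∀ᶠ X : ℕ in atTop,
      (∑ r ∈ Finset.range (R + 1), prob r - ε) * number Cls X ≤
        number (fun z => Cls z ∧ rank z ≤ 2 * R) X) ∧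
    HasSum prob 1 ∧ (0.2887 < prob 0 ∧ prob 1 = 2 * prob 0 ∧ prob 2 = 4 / 9 * prob 0) ∧
    (∀ z ∈ Pairs, Cls z → ∀ (K : Type) [Field K] [NumberField K], Module.finrank ℚ K = 2 →
      (∃ x : K, x ^ 2 = (z.2 : K)) → 2 ^ rank z *
        Nat.card {x : Pool.Agent.TH841.SH.D.Sha (curve z) // x + x = 0} =
          Nat.card (SqTwo K) ^ 2) := by
  obtain ⟨h1, h2, h3, h4, h5, h6, h7, h8⟩ :=
    Pool.Agent.Results.MP_a3f657_nt.EightCurvesByHeight.result
  exact ⟨h1, h2, h3, h4, fun R ε hε => low R hε, h6, ⟨h7.1, prob_one, prob_two⟩,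
    fun z hz hC K _ _ hK hx => ((h8 z hz hC).1 K hK hx).2.2⟩

end Pool.Agent.Results.MP_81dc49_nt.RanksEightCurvesByHeight
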