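import Pool.Agent.Results.MP_a3f657_nt.EightCurvesByHeight
import Pool.Agent.NH3.XT.PosA
import Pool.Agent.NH3.XT.LRP
import Pool.Agent.NH3.XT.SELP
import Pool.Agent.NH3.XT.INCA
import Pool.Agent.NH3.XT.INCH
import Pool.Agent.NH3.XT.IC2
import Pool.Agent.NH3.XT.PEL
import Pool.Agent.NH3.XT.GEO
import Pool.Agent.NH3.XT.GE2
import Pool.Agent.NH3.XT.GEP

/-!
# The POSITIVE twists of `y² = x (x - a²) (x - b²)`, `a² + c² = b²`, in the order by height

The family of the hand-in `MP_a3f657_nt.EightCurvesByHeight`: all the curves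
`E_{T,M} : y² = x (x - a² M) (x - b² M)`, `T = (a, b, c)` any primitive Pythagorean triple, `M` any squarefree
integer prime to `3`, ordered by the naive height. There the law was proved for a class of `M < 0`; here is
the corresponding class of `M > 0`, a positive proportion of the family. For EVERY curve of this class the
group `Sel_{2 ^ ∞}` is not zero, and it has at most `2 h²` elements killed by `2`, `h` the number of the ideal
classes of `ℚ(√(-M))` of order at most `2` which are squares. So for at least `28.87%` of the curves of the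
class the group `Sel_{2 ^ ∞}` has exactly `2` elements killed by `2`, and the rank is at most `1`; the rank is
at most `3` for at least `86.6%`, and at most `5` for at least `99.4%`.
-/

set_option autoImplicit false

open Filter Topology

namespace Pool.Agent.Results.MP_81dc49_nt.RanksPositiveTwistsByHeight

open Pool.Agent.Results.MP_a3f657_nt.TwoSelmerLawPythagorean
open Pool.Agent.Results.MP_a3f657_nt.EightCurvesByHeight (Pairs curve height number)

/-- the class of the positive twists of the triple `(a, b, c)` -/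
def InClassP (a b c M : ℤ) : Prop := 0 < M ∧ Squarefree M ∧
  (∀ p : ℕ, p.Prime → (p : ℤ) ∣ a * b → ¬ IsSquare ((-M : ℤ) : ZMod p)) ∧
  (∀ p : ℕ, p.Prime → p ≠ 2 → (p : ℤ) ∣ c → ¬ IsSquare ((M : ℤ) : ZMod p)) ∧
  (8 ∣ c → M % 8 ≠ 1)

/-- `M` is in the class of the triple -/
def ClsP (z : (ℤ × ℤ × ℤ) × ℤ) : Prop := InClassP z.1.1 z.1.2.1 z.1.2.2 z.2

/-- the Mordell-Weil rank of the curve of a pair -/
noncomputable def rank (z : (ℤ × ℤ × ℤ) × ℤ) : ℕ := Module.finrank ℤ (curve z).toAffine.Point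

section proof

open Pool.Agent.NH3.XT
open Pool.Agent.NH3.XT.HT (ZZ law_ht t_SUMM t_HHB t_CARD t_TANN t345)
open Pool.Agent.NH4.XG (nx)

theorem clsp_iff {a b c c' : ℤ} {e : ℕ} (hT : Tri a b c' e) (hc : c = 2 ^ e * c') (D : ℤ) :
    InClassP a b c D ↔ Clsp a b c' e D := by
  unfold InClassP Clsp
  refine and_congr_right fun _ => and_congr_right fun _ => and_congr ?_ (and_congr ?_ ?_)
  · exact forall_congr' fun p => forall_congr' fun hp => forall_congr' fun _ => (jac hp _).symm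
  · constructor
    · intro h p hp hpc
      refine (jac hp _).2 (h p hp ?_ ?_)
      · rintro rfl
        have h1 := hT.oc
        push_cast at hpc
        omega
      · rw [hc]
        exact hpc.mul_left _
    · intro h p hp hp2 hpc
      refine (jac hp _).1 (h p hp ?_)
      rw [hc] at hpc
      have hpr : Prime (p : ℤ) := Nat.prime_iff_prime_int.1 hp
      rcases hpr.dvd_or_dvd hpc with h1 | h1
      · exfalso
        have h2 : (p : ℤ) ∣ 2 := hpr.dvd_of_dvd_pow h1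
        have h3 : p ∣ 2 := by exact_mod_cast h2
        exact hp2 ((Nat.prime_dvd_prime_iff_eq hp Nat.prime_two).1 h3)
      · exact h1
  · refine imp_congr ?_ Iff.rfl
    have h1 := hT.he
    have h2 := hT.oc
    rw [hc]
    constructor
    · intro h3
      by_contra h4
      have h5 : e = 2 := by omega
      rw [h5] at h3
      norm_num at h3
      omega
    · intro h3
      have h4 : (2 : ℤ) ^ 3 ∣ 2 ^ e := pow_dvd_pow 2 h3
      exact (by norm_num at h4; exact h4 : (8 : ℤ) ∣ 2 ^ e).mul_right _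

theorem threeP {a b c D : ℤ} (hT : Triple a b c) (hD : InClassP a b c D) : ¬ (3 : ℤ) ∣ D := by
  intro h
  have h3 : Fact (Nat.Prime 3) := ⟨Nat.prime_three⟩
  have h0 : ((D : ℤ) : ZMod 3) = 0 := (ZMod.intCast_zmod_eq_zero_iff_dvd D 3).2 h
  rcases Pool.Agent.NH3.XT.three_dvd hT.1 with h1 | h1
  · refine hD.2.2.1 3 Nat.prime_three (by exact_mod_cast h1.mul_right b) ?_
    push_cast
    rw [h0, neg_zero]
    exact ⟨0, by ring⟩
  · refine hD.2.2.2.1 3 Nat.prime_three (by norm_num) (by exact_mod_cast h1) ?_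
    rw [h0]
    exact ⟨0, by ring⟩

/-- the 2-Selmer group of a positive twist -/
theorem sel_fin {a b c : ℤ} {e : ℕ} (hT : Tri a b c e) {D : ℤ} (hD : Clsp a b c e D) :
    (Sel (b ^ 2 * D) (a ^ 2 * D)).Finite ∧ 8 ≤ (Sel (b ^ 2 * D) (a ^ 2 * D)).ncard ∧
    (Sel (b ^ 2 * D) (a ^ 2 * D)).ncard ≤ 2 * nx D.natAbs.primeFactors ^ 2 :=
  sel_pos (t_SELP t_TOR t_LA t_LG (t_LP1 t_TOR) (t_LP2 t_TOR) (t_LP3 t_TOR)
    (t_L2R t_APX t_SQ2 t_J2a t_J2b t_J2c) t_L22a t_L22b t_L22c t_LRP) t_INCA (t_INCH t_IC2)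
    (t_GEP t_PEL t_GEO t_GE2) hT hD

/-- the pointwise statement -/
theorem point {a b c D : ℤ} (hT : Triple a b c) (hD : InClassP a b c D) :
    2 ≤ selTwo (E a b D) ∧ Nat.card (Pool.Agent.Y667.SX.Sel2H (E a b D)) = 4 * selTwo (E a b D) ∧
    2 ^ Module.finrank ℤ (E a b D).toAffine.Point *
      Nat.card {x : Pool.Agent.TH841.SH.D.Sha (E a b D) // x + x = 0} = selTwo (E a b D) ∧
    2 * selTwo (E a b D) ≤ nx D.natAbs.primeFactors ^ 2 := by
  obtain ⟨e, c', hc, hT'⟩ := t_PYT a b c hT.1 hT.2.1 hT.2.2.1 hT.2.2.2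
  obtain ⟨ha, hb, hc0, hab⟩ := tri_ne hT'
  obtain ⟨s1, s2, s3⟩ := sel_fin hT' ((clsp_iff hT' hc D).1 hD)
  obtain ⟨h1, h2, h3⟩ := ordersN ha hb hab hD.1.ne' ⟨s1, rfl⟩
  change Nat.card (Pool.Agent.Y667.SX.Sel2H (E a b D)) = _ at h1
  change 4 * (2 ^ Module.finrank ℤ (E a b D).toAffine.Point *
      Nat.card {x : Pool.Agent.TH841.SH.D.Sha (E a b D) // x + x = 0}) = _ at h2
  change 4 * selTwo (E a b D) = _ at h3
  rw [← h3] at h1 h2 s2 s3
  refine ⟨by omega, h1, Nat.eq_of_mul_eq_mul_left (by norm_num) h2, by omega⟩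

/-- the bound in terms of the ideal classes -/
theorem point_field {a b c D : ℤ} (hT : Triple a b c) (hD : InClassP a b c D)
    (K : Type) [Field K] [NumberField K] (hK : Module.finrank ℚ K = 2)
    (hx : ∃ x : K, x ^ 2 = ((-D : ℤ) : K)) : selTwo (E a b D) ≤ 2 * Nat.card (SqTwo K) ^ 2 := by
  obtain ⟨e, c', hc, hT'⟩ := t_PYT a b c hT.1 hT.2.1 hT.2.2.1 hT.2.2.2
  obtain ⟨n1, n3⟩ := nep_small hT' ((clsp_iff hT' hc D).1 hD)
  have hs' : Squarefree (-D) := by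
    rw [← Int.squarefree_natAbs, Int.natAbs_neg, Int.squarefree_natAbs]
    exact hD.2.1
  have h0 := hD.1
  have h4 := four_rank Pool.Agent.NH3.XS.t_R4 (by linarith : -D < 0) hs' (by omega) (by omega) K hK hx
  rw [Int.natAbs_neg] at h4
  have h5 := (point hT hD).2.2.2
  rw [← h4] at h5
  have h6 : (2 * Nat.card (SqTwo K)) ^ 2 = 4 * Nat.card (SqTwo K) ^ 2 := by ring
  have h7 : 2 * selTwo (E a b D) ≤ (2 * Nat.card (SqTwo K)) ^ 2 := h5
  omega

/-- the class depends only on the residue class modulo `8 a b c` -/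
theorem class_perP {a b c D D' : ℤ} (h : D ≡ D' [ZMOD (8 * a * b * c).natAbs]) (h0 : D' < 0)
    (hs : Squarefree D') (hD : InClassP a b c (-D)) : InClassP a b c (-D') := by
  have hdv : 8 * a * b * c ∣ D' - D := Int.natAbs_dvd.1 h.dvd
  have key : ∀ p : ℕ, (p : ℤ) ∣ 8 * a * b * c → ((D' : ℤ) : ZMod p) = ((D : ℤ) : ZMod p) := by
    intro p hp
    exact ((ZMod.intCast_eq_intCast_iff_dvd_sub D D' p).2 (hp.trans hdv)).symm
  obtain ⟨-, -, h1, h2, h3⟩ := hD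
  refine ⟨by linarith, ?_, fun p hp hpd => ?_, fun p hp hp2 hpc => ?_, fun h8 => ?_⟩
  · rw [← Int.squarefree_natAbs, Int.natAbs_neg, Int.squarefree_natAbs]
    exact hs
  · have h4 := key p (by
      rw [mul_assoc 8 a b]
      exact (hpd.mul_left 8).mul_right c)
    have h5 := h1 p hp hpd
    push_cast at h5 ⊢
    rw [h4]
    exact h5
  · have h4 := key p (hpc.mul_left _)
    have h5 := h2 p hp hp2 hpc
    push_cast at h5 ⊢
    rw [h4]
    exact h5
  · have h4 : (8 : ℤ) ∣ D' - D := (Dvd.dvd.mul_right (Dvd.intro _ (mul_assoc 8 a b).symm) c).trans hdv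
    have h5 := h3 h8
    omega

/-- the law for one triple -/
theorem law_oneP {a b c : ℤ} (hT : Triple a b c) (r : ℕ) :
    Tendsto (fun X : ℕ => count (fun D => InClassP a b c (-D) ∧
      nx D.natAbs.primeFactors = 2 ^ (r + 1)) X / count (fun D => InClassP a b c (-D)) X) atTop
      (𝓝 (prob r)) ∧
    ∃ δ : ℝ, 0 < δ ∧ ∀ᶠ X : ℕ in atTop, δ * X ≤ count (fun D => InClassP a b c (-D)) X := by
  classical
  set q := (8 * a * b * c).natAbs with hqd
  obtain ⟨e, c', hc, hT'⟩ := t_PYT a b c hT.1 hT.2.1 hT.2.2.1 hT.2.2.2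
  obtain ⟨ha, hb, hc0, hab⟩ := tri_ne hT'
  have hq : 0 < q := by
    refine Int.natAbs_pos.2 (mul_ne_zero (mul_ne_zero (mul_ne_zero (by norm_num) ha) hb) hT.2.2.2)
  let S : ℤ → Prop := fun D => ∃ D₀ : ℤ, D₀ ≡ D [ZMOD q] ∧ InClassP a b c (-D₀)
  have hSI : ∀ D : ℤ, D < 0 → Squarefree D → (S D ↔ InClassP a b c (-D)) := by
    intro D h0 hs
    constructor
    · rintro ⟨D₀, h1, h2⟩
      exact class_perP h1 h0 hs h2
    · exact fun h => ⟨D, Int.ModEq.refl D, h⟩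
  have hper : ∀ D D' : ℤ, D ≡ D' [ZMOD q] → (S D ↔ S D') := by
    intro D D' h
    constructor
    · rintro ⟨D₀, h1, h2⟩
      exact ⟨D₀, h1.trans h, h2⟩
    · rintro ⟨D₀, h1, h2⟩
      exact ⟨D₀, h1.trans h.symm, h2⟩
  obtain ⟨D₁, hD₁⟩ := t_EXIP a b c' e hT'
  have hD₁' : InClassP a b c D₁ := (clsp_iff hT' hc D₁).2 hD₁
  have hex : ∃ D : ℤ, D < 0 ∧ Squarefree D ∧ S D := by
    refine ⟨-D₁, by linarith [hD₁'.1], ?_, -D₁, Int.ModEq.refl _, ?_⟩
    · rw [← Int.squarefree_natAbs, Int.natAbs_neg, Int.squarefree_natAbs]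
      exact hD₁'.2.1
    · rw [neg_neg]
      exact hD₁'
  obtain ⟨h1, δ, X₀, hδ, h2⟩ := t_LAW Pool.Agent.NH4.XG.f_XGDEN q S hq hper hex
  have h3 := h1 1 (fun _ => ∅) (fun _ => r) (fun t p hp => absurd hp (Finset.notMem_empty p))
    (Function.injective_of_subsingleton _)
  rw [Fin.prod_univ_one, law_cr] at h3
  have key0 : ∀ Q Q' : ℤ → Prop, (∀ D : ℤ, D < 0 → Squarefree D → (Q D ↔ Q' D)) →
      ∀ X : ℕ, cneg Q X = count Q' X := by
    intro Q Q' h X
    unfold count cneg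
    refine congrArg (fun s : Finset ℤ => ((s.card : ℕ) : ℝ)) (Finset.ext fun D => ?_)
    rw [Finset.mem_filter, Finset.mem_filter]
    refine and_congr_right fun hD => and_congr_right fun hs => ?_
    rw [Finset.mem_Icc] at hD
    exact h D (by omega) hs
  have e1 := key0 _ _ hSI
  have e2 := key0 (fun D => S D ∧ ∀ t : Fin 1,
      nx (symmDiff D.natAbs.primeFactors ((fun _ => ∅ : Fin 1 → Finset ℕ) t)) = 2 ^ (r + 1))
    (fun D => InClassP a b c (-D) ∧ nx D.natAbs.primeFactors = 2 ^ (r + 1)) (fun D h0 hs => by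
      rw [hSI D h0 hs]
      refine and_congr_right fun _ => ?_
      have e3 : symmDiff D.natAbs.primeFactors (∅ : Finset ℕ) = D.natAbs.primeFactors := by
        rw [← Finset.bot_eq_empty, symmDiff_bot]
      constructor
      · intro h
        have h4 := h 0
        simp only [e3] at h4
        exact h4
      · intro h t
        simp only [e3]
        exact h)
  refine ⟨?_, δ, hδ, (eventually_ge_atTop X₀).mono fun X hX => ?_⟩
  · refine (h3 : Tendsto _ atTop (𝓝 (prob r))).congr fun X => ?_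
    rw [e1 X, e2 X]
  · rw [← e1 X]
    exact h2 X hX

theorem set_eqP (P : (ℤ × ℤ × ℤ) × ℤ → Prop) (X : ℕ) :
    {z : (ℤ × ℤ × ℤ) × ℤ | z ∈ Pairs ∧ height z ≤ X ∧ ClsP z ∧ P z} =
      (fun z : (ℤ × ℤ × ℤ) × ℤ => (z.1, -z.2)) ''
        ZZ (fun t M => InClassP t.1 t.2.1 t.2.2 (-M) ∧ P (t, -M)) X := by
  have hev : ∀ M : ℤ, (-M) ^ 6 = M ^ 6 := fun M => by ring
  have hsq : ∀ M : ℤ, Squarefree M → Squarefree (-M) := fun M h => by
    rw [← Int.squarefree_natAbs, Int.natAbs_neg, Int.squarefree_natAbs]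
    exact h
  ext z
  unfold ZZ Pairs
  constructor
  · rintro ⟨⟨h1, h2, h3, h4, h5, h6⟩, h7, h8, h9⟩
    rw [Pool.Agent.Results.MP_a3f657_nt.EightCurvesByHeight.height_eq] at h7
    refine ⟨(z.1, -z.2), ⟨⟨h1, h2, h3, h4.1, h4.2.1, h4.2.2.1⟩, ?_, hsq _ h5, ⟨?_, ?_⟩, ?_⟩, ?_⟩
    · have := h8.1
      show -z.2 < 0
      linarith
    · show InClassP z.1.1 z.1.2.1 z.1.2.2 (- -z.2)
      rw [neg_neg]
      exact h8
    · show P (z.1, - -z.2)
      rw [neg_neg]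
      exact h9
    · show (-z.2) ^ 6 * _ ≤ _
      rw [hev]
      exact h7
    · show (z.1, - -z.2) = z
      rw [neg_neg]
  · rintro ⟨w, ⟨⟨h1, h2, h3, h4, h4', h4''⟩, h6, h5, ⟨h8, h9⟩, h7⟩, rfl⟩
    have hT : Triple w.1.1 w.1.2.1 w.1.2.2 := ⟨h4, h4', h4'', h3.ne'⟩
    refine ⟨⟨h1, h2, h3, hT, hsq _ h5, threeP hT h8⟩, ?_, h8, h9⟩
    rw [Pool.Agent.Results.MP_a3f657_nt.EightCurvesByHeight.height_eq]
    show (-w.2) ^ 6 * _ ≤ _
    rw [hev]
    exact h7

theorem num_eqP (P : (ℤ × ℤ × ℤ) × ℤ → Prop) (X : ℕ) :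
    number (fun z => ClsP z ∧ P z) X =
      ((ZZ (fun t M => InClassP t.1 t.2.1 t.2.2 (-M) ∧ P (t, -M)) X).ncard : ℝ) := by
  unfold number
  rw [set_eqP, Set.ncard_image_of_injective]
  intro z z' h
  have h1 := congrArg Prod.fst h
  have h2 := congrArg Prod.snd h
  exact Prod.ext h1 (neg_injective h2)

theorem num_eqP' (X : ℕ) :
    number ClsP X = ((ZZ (fun t M => InClassP t.1 t.2.1 t.2.2 (-M)) X).ncard : ℝ) := by
  have h := num_eqP (fun _ => True) X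
  simp only [and_true] at h
  exact h

/-- the law by height -/
theorem law_heightP (r : ℕ) :
    Tendsto (fun X : ℕ => number (fun z => ClsP z ∧ nx z.2.natAbs.primeFactors = 2 ^ (r + 1)) X /
      number ClsP X) atTop (𝓝 (prob r)) ∧
    ∃ δ : ℝ, 0 < δ ∧ ∀ᶠ X : ℕ in atTop, δ * (X : ℝ) ^ (1 / 6 : ℝ) ≤ number ClsP X := by
  have h := law_ht t_SUMM t_HHB t_CARD t_TANN
    (Q := fun t M => InClassP t.1 t.2.1 t.2.2 (-M))
    (Q' := fun t M => InClassP t.1 t.2.1 t.2.2 (-M) ∧ nx M.natAbs.primeFactors = 2 ^ (r + 1))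
    (c := prob r) (fun t M h => h.1)
    (fun t => (law_oneP ⟨t.2.2.2.2.1, t.2.2.2.2.2.1, t.2.2.2.2.2.2, t.2.2.2.1.ne'⟩ r).1)
    ⟨t345, (law_oneP ⟨t345.2.2.2.2.1, t345.2.2.2.2.2.1, t345.2.2.2.2.2.2, t345.2.2.2.1.ne'⟩ r).2⟩
  simp only [num_eqP, num_eqP', Int.natAbs_neg]
  exact h

theorem positiveP : ∃ δ : ℝ, 0 < δ ∧ ∀ᶠ X : ℕ in atTop,
    δ * number (fun _ => True) X ≤ number ClsP X ∧ δ * (X : ℝ) ^ (1 / 6 : ℝ) ≤ number ClsP X := by
  obtain ⟨C, hC, h⟩ := Pool.Agent.Results.MP_a3f657_nt.EightCurvesByHeight.all_le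
  obtain ⟨δ, hδ, h2⟩ := (law_heightP 0).2
  refine ⟨min (δ / C) δ, by positivity, h2.mono fun X hX => ⟨?_, ?_⟩⟩
  · have h3 : 0 ≤ number (fun _ => True) X := Nat.cast_nonneg _
    calc min (δ / C) δ * number (fun _ => True) X ≤ δ / C * (C * (X : ℝ) ^ (1 / 6 : ℝ)) :=
          mul_le_mul (min_le_left _ _) (h X).2 h3 (by positivity)
      _ = δ * (X : ℝ) ^ (1 / 6 : ℝ) := by field_simp
      _ ≤ _ := hX
  · exact (mul_le_mul_of_nonneg_right (min_le_right _ _) (by positivity)).trans hX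

theorem fin_set (P : (ℤ × ℤ × ℤ) × ℤ → Prop) (X : ℕ) :
    {z : (ℤ × ℤ × ℤ) × ℤ | z ∈ Pairs ∧ height z ≤ X ∧ P z}.Finite :=
  ((Pool.Agent.Results.MP_a3f657_nt.EightCurvesByHeight.all_le.choose_spec.2 X).1).subset
    fun _ h => ⟨h.1, h.2.1⟩

theorem number_mono {P P' : (ℤ × ℤ × ℤ) × ℤ → Prop} (h : ∀ z ∈ Pairs, P z → P' z) (X : ℕ) :
    number P X ≤ number P' X := by
  unfold number
  refine Nat.cast_le.2 (Set.ncard_le_ncard ?_ (fin_set _ X))
  rintro z ⟨h1, h2, h3⟩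
  exact ⟨h1, h2, h z h1 h3⟩

theorem number_sum (R X : ℕ) :
    ∑ r ∈ Finset.range R, number (fun z => ClsP z ∧ nx z.2.natAbs.primeFactors = 2 ^ (r + 1)) X =
      number (fun z => ClsP z ∧ ∃ r < R, nx z.2.natAbs.primeFactors = 2 ^ (r + 1)) X := by
  induction R with
  | zero =>
    rw [Finset.sum_range_zero]
    unfold number
    have h : {z : (ℤ × ℤ × ℤ) × ℤ | z ∈ Pairs ∧ height z ≤ X ∧ (ClsP z ∧
        ∃ r < 0, nx z.2.natAbs.primeFactors = 2 ^ (r + 1))} = ∅ := by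
      refine Set.eq_empty_iff_forall_notMem.2 ?_
      rintro z ⟨-, -, -, r, hr, -⟩
      exact absurd hr (Nat.not_lt_zero r)
    rw [h, Set.ncard_empty, Nat.cast_zero]
  | succ R ih =>
    rw [Finset.sum_range_succ, ih]
    unfold number
    rw [← Nat.cast_add, ← Set.ncard_union_eq ?_ (fin_set _ X) (fin_set _ X)]
    · congr 2
      ext z
      constructor
      · rintro (⟨h1, h2, h3, r, hr, h4⟩ | ⟨h1, h2, h3, h4⟩)
        · exact ⟨h1, h2, h3, r, by omega, h4⟩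
        · exact ⟨h1, h2, h3, R, by omega, h4⟩
      · rintro ⟨h1, h2, h3, r, hr, h4⟩
        rcases Nat.lt_succ_iff_lt_or_eq.1 hr with h | h
        · exact Or.inl ⟨h1, h2, h3, r, h, h4⟩
        · subst h
          exact Or.inr ⟨h1, h2, h3, h4⟩
    · rw [Set.disjoint_left]
      rintro z ⟨-, -, -, r, hr, h4⟩ ⟨-, -, -, h5⟩
      have h6 : r + 1 = R + 1 := Nat.pow_right_injective (le_refl 2) (h4.symm.trans h5)
      omega

theorem tail {z : (ℤ × ℤ × ℤ) × ℤ} (hz : z ∈ Pairs) (hC : ClsP z) {r R : ℕ} (hr : r ≤ R)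
    (h : nx z.2.natAbs.primeFactors = 2 ^ (r + 1)) :
    2 ≤ selTwo (curve z) ∧ selTwo (curve z) ≤ 2 * 4 ^ R ∧ rank z ≤ 2 * R + 1 := by
  obtain ⟨h1, -, h3, h4⟩ := point hz.2.2.2.1 hC
  rw [h] at h4
  have h5 : (2 ^ (r + 1)) ^ 2 = 2 * (2 * 4 ^ r) := by
    rw [show (4 : ℕ) = 2 ^ 2 by norm_num, ← pow_mul, ← pow_mul]
    ring
  have h6 : (4 : ℕ) ^ r ≤ 4 ^ R := Nat.pow_le_pow_right (by norm_num) hr
  have h7 : selTwo (curve z) ≤ 2 * 4 ^ R := by
    have h8 : 2 * selTwo (curve z) ≤ 2 * (2 * 4 ^ r) := by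
      rw [← h5]
      exact h4
    omega
  refine ⟨h1, h7, ?_⟩
  have h8 : 2 ^ rank z ≤ selTwo (curve z) := by
    refine Nat.le_of_dvd (by exact lt_of_lt_of_le two_pos h1) ?_
    exact Dvd.intro _ h3
  have h9 : 2 ^ rank z ≤ 2 ^ (2 * R + 1) := by
    refine (h8.trans h7).trans_eq ?_
    rw [pow_succ, pow_mul]
    norm_num
    ring
  exact (Nat.pow_le_pow_iff_right (by norm_num)).1 h9

theorem low (R : ℕ) {ε : ℝ} (hε : 0 < ε) : ∀ᶠ X : ℕ in atTop,
    (∑ r ∈ Finset.range (R + 1), prob r - ε) * number ClsP X ≤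
      number (fun z => ClsP z ∧ 2 ≤ selTwo (curve z) ∧ selTwo (curve z) ≤ 2 * 4 ^ R ∧
        rank z ≤ 2 * R + 1) X := by
  have h1 : Tendsto (fun X : ℕ => ∑ r ∈ Finset.range (R + 1),
      number (fun z => ClsP z ∧ nx z.2.natAbs.primeFactors = 2 ^ (r + 1)) X / number ClsP X) atTop
      (𝓝 (∑ r ∈ Finset.range (R + 1), prob r)) :=
    tendsto_finsetSum _ fun r _ => (law_heightP r).1
  have h2 := h1.eventually (lt_mem_nhds (show ∑ r ∈ Finset.range (R + 1), prob r - ε <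
    ∑ r ∈ Finset.range (R + 1), prob r by linarith))
  refine h2.mono fun X hX => ?_
  rw [← Finset.sum_div, number_sum] at hX
  have h3 : number (fun z => ClsP z ∧ ∃ r < R + 1, nx z.2.natAbs.primeFactors = 2 ^ (r + 1)) X ≤
      number (fun z => ClsP z ∧ 2 ≤ selTwo (curve z) ∧ selTwo (curve z) ≤ 2 * 4 ^ R ∧
        rank z ≤ 2 * R + 1) X := by
    refine number_mono (fun z hz h => ⟨h.1, ?_⟩) X
    obtain ⟨hC, r, hr, h4⟩ := h
    exact tail hz hC (Nat.lt_succ_iff.1 hr) h4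
  refine le_trans ?_ h3
  have h0 : 0 ≤ number ClsP X := Nat.cast_nonneg _
  rcases h0.eq_or_lt with h | h
  · rw [← h, mul_zero]
    exact Nat.cast_nonneg _
  · exact ((lt_div_iff₀ h).1 hX).le

theorem prob_eq (r : ℕ) : prob r = (1 / 2 : ℝ) ^ (r ^ 2) * prob 0 /
    (∏ i ∈ Finset.range r, (1 - (1 / 2 : ℝ) ^ (i + 1))) ^ 2 := by
  have h1 : prob r = _ := Pool.Agent.NH3.XT.SUM.cr_eq r
  have h0 : prob 0 = _ := Pool.Agent.NH3.XT.SUM.cr_eq 0
  rw [Pool.Agent.NH3.XT.SUM.Q_zero] at h0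
  have h2 : prob 0 = Pool.Agent.NH3.XT.SUM.c := by
    rw [h0]
    norm_num
  rw [h1, h2]
  rfl

theorem prob_one : prob 1 = 2 * prob 0 := by
  rw [prob_eq 1]
  norm_num [Finset.prod_range_succ]
  ring

theorem prob_two : prob 2 = 4 / 9 * prob 0 := by
  rw [prob_eq 2]
  norm_num [Finset.prod_range_succ]
  ring

end proof

/-- **Main theorem.** -/
theorem result :
    (∀ X : ℕ, {z : (ℤ × ℤ × ℤ) × ℤ | z ∈ Pairs ∧ height z ≤ X}.Finite) ∧
    (∀ z ∈ Pairs, ∀ z' ∈ Pairs, curve z = curve z' → z = z') ∧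
    (∃ δ : ℝ, 0 < δ ∧ ∀ᶠ X : ℕ in atTop,
      δ * number (fun _ => True) X ≤ number ClsP X ∧ δ * (X : ℝ) ^ (1 / 6 : ℝ) ≤ number ClsP X) ∧
    (∀ z ∈ Pairs, ClsP z → 2 ≤ selTwo (curve z) ∧
      Nat.card (Pool.Agent.Y667.SX.Sel2H (curve z)) = 4 * selTwo (curve z) ∧
      2 ^ rank z * Nat.card {x : Pool.Agent.TH841.SH.D.Sha (curve z) // x + x = 0} =
        selTwo (curve z) ∧
      ∀ (K : Type) [Field K] [NumberField K], Module.finrank ℚ K = 2 →
        (∃ x : K, x ^ 2 = ((-z.2 : ℤ) : K)) → selTwo (curve z) ≤ 2 * Nat.card (SqTwo K) ^ 2) ∧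
    (∀ (R : ℕ) (ε : ℝ), 0 < ε → ∀ᶠ X : ℕ in atTop,
      (∑ r ∈ Finset.range (R + 1), prob r - ε) * number ClsP X ≤
        number (fun z => ClsP z ∧ 2 ≤ selTwo (curve z) ∧ selTwo (curve z) ≤ 2 * 4 ^ R ∧
          rank z ≤ 2 * R + 1) X) ∧
    HasSum prob 1 ∧ (0.2887 < prob 0 ∧ prob 1 = 2 * prob 0 ∧ prob 2 = 4 / 9 * prob 0) := by
  refine ⟨fun X =>
    (Pool.Agent.Results.MP_a3f657_nt.EightCurvesByHeight.all_le.choose_spec.2 X).1,
    Pool.Agent.Results.MP_a3f657_nt.EightCurvesByHeight.result.2.2.1, positiveP,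
    fun z hz hC => ?_, fun R ε hε => low R hε, Pool.Agent.NH3.XT.t_SUM, ?_, prob_one, prob_two⟩
  · obtain ⟨h1, h2, h3, -⟩ := point hz.2.2.2.1 hC
    exact ⟨h1, h2, h3, fun K _ _ hK hx => point_field hz.2.2.2.1 hC K hK hx⟩
  · rw [Pool.Agent.Results.MP_a3f657_nt.EightCurvesByHeight.prob_zero]
    exact Pool.Agent.NH5.PR.t_ETA.2.2.2.1

end Pool.Agent.Results.MP_81dc49_nt.RanksPositiveTwistsByHeight
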